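import Mathlib
import Pool.Agent.U951.FD.Fin

/-!
# `∑_{k<p} C(-1/4,k)^2 / (-8)^k` modulo `p^2`: answer to Q2

Let `p = 4n+1`, `f(x) = ∑ C(n,k)^2 x^k` and `g(x) = ∑ C(n,k)^2 (H_k - H_{n-k}) x^k` modulo `p`.
Reversing the order of summation, `(-8)^n S₂ - S₁ = (p/2) g(-8)` modulo `p^2`, where `S₁`, `S₂` are the sums
of Q1 and Q2. The polynomial `h(t) = g(4t(1-t))` satisfies an inhomogeneous differential equation of
Legendre; the sum of its three conjugates `h(t) + t^{2n} h(1/t) + (1-t)^{2n} h(1/(1-t))` satisfies the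
homogeneous one, hence is a constant multiple of `f(4t(1-t))` (all degrees are less than `p`).
At `t = -1` this says `2 g(-8) = -H_n f(-8)`. The value of `H_n` modulo `p`, the quartic character of two
and the starting result `QuestionOne` give Q2.
-/

set_option autoImplicit false

namespace Pool.Agent.Results.MP_fdcced_nt.QuestionTwo

open Finset

/-- the binomial coefficient `a (a-1) ⋯ (a-k+1) / k!` for rational `a` -/
def binom (a : ℚ) (k : ℕ) : ℚ := (∏ i ∈ range k, (a - i)) / k.factorial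

/-- `x ≡ y (mod p^2)` for rational numbers `x`, `y` with denominators prime to `p`:
`(x - y) / p^2` has denominator prime to `p`. -/
def CongrSq (p : ℕ) (x y : ℚ) : Prop :=
  ¬ p ∣ x.den ∧ ¬ p ∣ y.den ∧ ¬ p ∣ ((x - y) / (p : ℚ) ^ 2).den

open Pool.Agent.R439.PL

theorem congr_of_EQ {p : ℕ} [Fact p.Prime] {x y : ℚ} (h : EQ p 2 x y) : CongrSq p x y := by
  refine ⟨?_, ?_, den_of_I h.2.2⟩
  · have := den_of_I (p := p) (k := 0) (I_zero_iff.2 h.1)
    rwa [pow_zero, div_one] at this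
  · have := den_of_I (p := p) (k := 0) (I_zero_iff.2 h.2.1)
    rwa [pow_zero, div_one] at this

theorem sg_zpow (t : ℤ) : (Pool.Agent.U951.FD.sg t : ℚ) = (-1) ^ t := by
  unfold Pool.Agent.U951.FD.sg
  split_ifs with h
  · rw [Even.neg_one_zpow (Int.even_iff.2 h)]; norm_num
  · rw [Odd.neg_one_zpow (Int.odd_iff.2 (by omega))]; norm_num

/-- **Q2.** Let `p` be a prime, `p ≡ 1 (mod 4)`. There are `x, y` with `p = x² + y²`, `x ≡ 1 (mod 4)`, and
for all such `x, y` the sum `∑_{k<p} C(-1/4,k)² / (-8)^k` is congruent to `(-1)^{y/4} (2x - p/(2x))` modulo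
`p²` if `p ≡ 1 (mod 8)` (then `4 ∣ y`), and to `(-1)^{(y-2)/4} (2y - p/(2y))` if `p ≡ 5 (mod 8)` (then
`4 ∣ y - 2`). -/
theorem result (p : ℕ) (hp : p.Prime) (h4 : p % 4 = 1) :
    (∃ x y : ℤ, (p : ℤ) = x ^ 2 + y ^ 2 ∧ x % 4 = 1) ∧
    ∀ x y : ℤ, (p : ℤ) = x ^ 2 + y ^ 2 → x % 4 = 1 →
      (p % 8 = 1 → 4 ∣ y ∧ CongrSq p (∑ k ∈ range p, binom (-1 / 4) k ^ 2 / (-8) ^ k)
        ((-1) ^ (y / 4) * (2 * (x : ℚ) - p / (2 * x)))) ∧
      (p % 8 = 5 → 4 ∣ y - 2 ∧ CongrSq p (∑ k ∈ range p, binom (-1 / 4) k ^ 2 / (-8) ^ k)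
        ((-1) ^ ((y - 2) / 4) * (2 * (y : ℚ) - p / (2 * y)))) := by
  haveI : Fact p.Prime := ⟨hp⟩
  obtain ⟨n, hn⟩ : ∃ n, p = 4 * n + 1 := ⟨p / 4, by omega⟩
  constructor
  · obtain ⟨a, b, h1, h2, -⟩ := Pool.Agent.R439.FD.jac p n hn
    exact ⟨-a, b, by rw [h1]; ring, by omega⟩
  · intro x y h1 h2
    obtain ⟨u, hu⟩ : ∃ u, x = 4 * u + 1 := ⟨x / 4, by omega⟩
    obtain ⟨v, hv⟩ : ∃ v, x ^ 2 = 8 * v + 1 := ⟨2 * u ^ 2 + u, by rw [hu]; ring⟩
    have hpar : y % 2 = 0 := by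
      rcases Int.emod_two_eq_zero_or_one y with h | h
      · exact h
      · obtain ⟨w, hw⟩ : ∃ w, y = 2 * w + 1 := ⟨y / 2, by omega⟩
        have : (p : ℤ) = 8 * v + 1 + (4 * (w ^ 2 + w) + 1) := by rw [h1, hv, hw]; ring
        omega
    constructor
    · intro h8
      have hy : y % 4 = 0 := by
        by_contra hne
        obtain ⟨w, hw⟩ : ∃ w, y = 4 * w + 2 := ⟨y / 4, by omega⟩
        have : (p : ℤ) = 8 * v + 1 + (8 * (2 * w ^ 2 + 2 * w) + 4) := by rw [h1, hv, hw]; ring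
        omega
      refine ⟨Int.dvd_of_emod_eq_zero hy, ?_⟩
      have h3 := Pool.Agent.U951.FD.case1 hn h1 h2 (y / 4) (by omega) (by rw [Nat.even_iff]; omega)
      rw [sg_zpow] at h3
      exact congr_of_EQ h3
    · intro h8
      have hy : y % 4 = 2 := by
        by_contra hne
        obtain ⟨w, hw⟩ : ∃ w, y = 4 * w := ⟨y / 4, by omega⟩
        have : (p : ℤ) = 8 * v + 1 + 8 * (2 * w ^ 2) := by rw [h1, hv, hw]; ring
        omega
      refine ⟨Int.dvd_of_emod_eq_zero (by omega), ?_⟩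
      have h3 := Pool.Agent.U951.FD.case5 hn h1 h2 ((y - 2) / 4) (by omega) (by rw [Nat.odd_iff]; omega)
      rw [sg_zpow] at h3
      exact congr_of_EQ h3

end Pool.Agent.Results.MP_fdcced_nt.QuestionTwo
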